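import Mathlib

/-!
# Noncommutative power series

`NC X k` is the ring of formal power series in the noncommuting variables `x ∈ X` with coefficients
in the ring `k`: a series is its function of coefficients `List X → k`. `sh a x` collects the
coefficients of the words starting with `x`, so that `a = a [] + ∑ x, var x * sh a x`.
-/

set_option autoImplicit false
set_option linter.unusedSectionVars false

namespace Pool.Agent.Helper85.PF

open Filter Topology

/-- Noncommutative power series: coefficient functions on words. -/
def NC (X k : Type*) : Type _ := List X → k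

namespace NC

variable {X k : Type*}

@[ext] theorem ext {a b : NC X k} (h : ∀ w, a w = b w) : a = b := funext h

/-- the part of the series of words starting with `x`, with the `x` removed -/
def sh (a : NC X k) (x : X) : NC X k := fun w => a (x :: w)

theorem sh_apply (a : NC X k) (x : X) (w : List X) : sh a x w = a (x :: w) := rfl

section ring

variable [Ring k]

instance : AddCommGroup (NC X k) := inferInstanceAs (AddCommGroup (List X → k))

@[simp] theorem add_apply (a b : NC X k) (w : List X) : (a + b) w = a w + b w := rfl
@[simp] theorem sub_apply (a b : NC X k) (w : List X) : (a - b) w = a w - b w := rfl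
@[simp] theorem neg_apply (a : NC X k) (w : List X) : (-a) w = -a w := rfl
@[simp] theorem zero_apply (w : List X) : (0 : NC X k) w = 0 := rfl

/-- the product of two series (convolution), by recursion on the word -/
def mulAux : List X → NC X k → NC X k → k
  | [], a, b => a [] * b []
  | x :: w, a, b => a [] * b (x :: w) + mulAux w (sh a x) b

instance : Mul (NC X k) := ⟨fun a b w => mulAux w a b⟩

/-- the series `1` -/
def oneAux : List X → k
  | [] => 1
  | _ :: _ => 0

instance : One (NC X k) := ⟨oneAux⟩

@[simp] theorem one_nil : (1 : NC X k) [] = 1 := rfl
@[simp] theorem one_cons (x : X) (w : List X) : (1 : NC X k) (x :: w) = 0 := rfl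
@[simp] theorem mul_nil (a b : NC X k) : (a * b) [] = a [] * b [] := rfl
theorem mul_cons (a b : NC X k) (x : X) (w : List X) :
    (a * b) (x :: w) = a [] * b (x :: w) + (sh a x * b) w := rfl

@[simp] theorem sh_add (a b : NC X k) (x : X) : sh (a + b) x = sh a x + sh b x := rfl
@[simp] theorem sh_sub (a b : NC X k) (x : X) : sh (a - b) x = sh a x - sh b x := rfl
@[simp] theorem sh_neg (a : NC X k) (x : X) : sh (-a) x = -sh a x := rfl
@[simp] theorem sh_zero (x : X) : sh (0 : NC X k) x = 0 := rfl
@[simp] theorem sh_one (x : X) : sh (1 : NC X k) x = 0 := rfl

protected theorem add_mul' (w : List X) : ∀ a b c : NC X k,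
    ((a + b) * c) w = (a * c) w + (b * c) w := by
  induction w with
  | nil => intro a b c; simp [add_mul]
  | cons x w ih => intro a b c; rw [mul_cons, mul_cons, mul_cons, sh_add, ih, add_apply]; noncomm_ring

protected theorem mul_add' (w : List X) : ∀ a b c : NC X k,
    (a * (b + c)) w = (a * b) w + (a * c) w := by
  induction w with
  | nil => intro a b c; simp [mul_add]
  | cons x w ih => intro a b c; rw [mul_cons, mul_cons, mul_cons, ih, add_apply]; noncomm_ring

protected theorem zero_mul' (w : List X) : ∀ a : NC X k, ((0 : NC X k) * a) w = 0 := by
  induction w with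
  | nil => intro a; simp
  | cons x w ih => intro a; rw [mul_cons, sh_zero, ih]; simp

protected theorem mul_zero' (w : List X) : ∀ a : NC X k, (a * (0 : NC X k)) w = 0 := by
  induction w with
  | nil => intro a; simp
  | cons x w ih => intro a; rw [mul_cons, ih]; simp

/-- multiplication of all coefficients by a constant on the left -/
def lsm (c : k) (a : NC X k) : NC X k := fun w => c * a w

@[simp] theorem lsm_apply (c : k) (a : NC X k) (w : List X) : lsm c a w = c * a w := rfl

protected theorem lsm_mul' (c : k) (w : List X) : ∀ a b : NC X k,
    (lsm c a * b) w = c * (a * b) w := by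
  induction w with
  | nil => intro a b; simp [mul_assoc]
  | cons x w ih =>
    intro a b
    have : sh (lsm c a) x = lsm c (sh a x) := rfl
    rw [mul_cons, mul_cons, this, ih, lsm_apply]
    noncomm_ring

theorem sh_mul (a b : NC X k) (x : X) : sh (a * b) x = lsm (a []) (sh b x) + sh a x * b := rfl

protected theorem mul_assoc' (w : List X) : ∀ a b c : NC X k,
    (a * b * c) w = (a * (b * c)) w := by
  induction w with
  | nil => intro a b c; simp [mul_assoc]
  | cons x w ih =>
    intro a b c
    rw [mul_cons, mul_cons, mul_cons, sh_mul, NC.add_mul', NC.lsm_mul', ih, mul_nil]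
    noncomm_ring

protected theorem one_mul' (w : List X) : ∀ a : NC X k, (1 * a) w = a w := by
  cases w with
  | nil => intro a; simp
  | cons x w => intro a; rw [mul_cons, sh_one, NC.zero_mul']; simp

protected theorem mul_one' (w : List X) : ∀ a : NC X k, (a * 1) w = a w := by
  induction w with
  | nil => intro a; simp
  | cons x w ih => intro a; rw [mul_cons, ih]; simp [sh]

instance : Ring (NC X k) :=
  { (inferInstance : AddCommGroup (NC X k)) with
    mul := (· * ·)
    one := 1
    left_distrib := fun a b c => ext fun w => NC.mul_add' w a b c
    right_distrib := fun a b c => ext fun w => NC.add_mul' w a b c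
    zero_mul := fun a => ext fun w => NC.zero_mul' w a
    mul_zero := fun a => ext fun w => NC.mul_zero' w a
    mul_assoc := fun a b c => ext fun w => NC.mul_assoc' w a b c
    one_mul := fun a => ext fun w => NC.one_mul' w a
    mul_one := fun a => ext fun w => NC.mul_one' w a }

/-- constant series -/
def CAux (c : k) : List X → k
  | [] => c
  | _ :: _ => 0

/-- constant series, as a ring homomorphism -/
def C : k →+* NC X k where
  toFun c := CAux c
  map_one' := ext fun w => by cases w <;> rfl
  map_zero' := ext fun w => by cases w <;> rfl
  map_add' c d := ext fun w => by cases w <;> simp [CAux]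
  map_mul' c d := ext fun w => by
    cases w with
    | nil => rfl
    | cons x w =>
      rw [mul_cons]
      have : sh (CAux c : NC X k) x = 0 := rfl
      rw [this, zero_mul]
      simp [CAux]

@[simp] theorem C_nil (c : k) : (C c : NC X k) [] = c := rfl
@[simp] theorem C_cons (c : k) (x : X) (w : List X) : (C c : NC X k) (x :: w) = 0 := rfl
@[simp] theorem sh_C (c : k) (x : X) : sh (C c : NC X k) x = 0 := rfl

theorem C_mul (c : k) (a : NC X k) : C c * a = lsm c a := by
  ext w
  cases w with
  | nil => rfl
  | cons x w => rw [mul_cons, sh_C, zero_mul]; simp

theorem C_mul_apply (c : k) (a : NC X k) (w : List X) : (C c * a : NC X k) w = c * a w := by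
  rw [C_mul, lsm_apply]

theorem mul_C_apply (c : k) (w : List X) : ∀ a : NC X k, (a * C c : NC X k) w = a w * c := by
  induction w with
  | nil => intro a; rfl
  | cons x w ih => intro a; rw [mul_cons, ih]; simp [sh]

theorem sh_mul' (a b : NC X k) (x : X) : sh (a * b) x = C (a []) * sh b x + sh a x * b := by
  rw [C_mul, sh_mul]

open Classical in
/-- the variable `x` -/
noncomputable def var (x : X) : NC X k := fun w => if w = [x] then 1 else 0

@[simp] theorem var_nil (x : X) : (var x : NC X k) [] = 0 := by simp [var]

theorem sh_var_self (x : X) : sh (var x : NC X k) x = 1 := by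
  ext w
  cases w <;> simp [sh, var]

theorem sh_var_ne {x y : X} (h : y ≠ x) : sh (var x : NC X k) y = 0 := by
  ext w
  simp [sh, var, h]

@[simp] theorem var_mul_nil (x : X) (a : NC X k) : (var x * a : NC X k) [] = 0 := by simp

theorem var_mul_cons_self (x : X) (a : NC X k) (w : List X) : (var x * a : NC X k) (x :: w) = a w := by
  rw [mul_cons, sh_var_self]; simp

theorem var_mul_cons_ne {x y : X} (h : y ≠ x) (a : NC X k) (w : List X) :
    (var x * a : NC X k) (y :: w) = 0 := by
  rw [mul_cons, sh_var_ne h]; simp

theorem sh_var_mul_self (x : X) (a : NC X k) : sh (var x * a) x = a :=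
  ext fun w => var_mul_cons_self x a w

theorem sh_var_mul_ne {x y : X} (h : y ≠ x) (a : NC X k) : sh (var x * a) y = 0 :=
  ext fun w => var_mul_cons_ne h a w

/-- the coefficient at the empty word, as a ring homomorphism -/
def aug : NC X k →+* k where
  toFun a := a []
  map_one' := rfl
  map_mul' _ _ := rfl
  map_zero' := rfl
  map_add' _ _ := rfl

@[simp] theorem aug_apply (a : NC X k) : aug a = a [] := rfl

end ring

section algebra

variable [CommRing k]

instance : Module k (NC X k) := inferInstanceAs (Module k (List X → k))

@[simp] theorem smul_apply (c : k) (a : NC X k) (w : List X) : (c • a) w = c * a w := rfl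

theorem smul_eq_C_mul (c : k) (a : NC X k) : c • a = C c * a := by
  ext w; rw [C_mul_apply, smul_apply]

theorem C_commutes (c : k) (a : NC X k) : C c * a = a * C c := by
  ext w; rw [C_mul_apply, mul_C_apply, mul_comm]

noncomputable instance : Algebra k (NC X k) where
  algebraMap := C
  commutes' c a := C_commutes c a
  smul_def' c a := smul_eq_C_mul c a

theorem algebraMap_eq (c : k) : algebraMap k (NC X k) c = C c := rfl

@[simp] theorem sh_smul (c : k) (a : NC X k) (x : X) : sh (c • a) x = c • sh a x := rfl

end algebra

section top

variable [TopologicalSpace k]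

instance : TopologicalSpace (NC X k) := inferInstanceAs (TopologicalSpace (List X → k))

theorem continuous_apply (w : List X) : Continuous fun a : NC X k => a w :=
  _root_.continuous_apply w

theorem continuous_iff {Z : Type*} [TopologicalSpace Z] {f : Z → NC X k} :
    Continuous f ↔ ∀ w, Continuous fun z => f z w := continuous_pi_iff

theorem tendsto_iff {Z : Type*} {l : Filter Z} {f : Z → NC X k} {a : NC X k} :
    Tendsto f l (𝓝 a) ↔ ∀ w, Tendsto (fun z => f z w) l (𝓝 (a w)) := tendsto_pi_nhds

theorem continuous_sh (x : X) : Continuous fun a : NC X k => sh a x :=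
  continuous_iff.2 fun w => continuous_apply (x :: w)

instance [T2Space k] : T2Space (NC X k) := inferInstanceAs (T2Space (List X → k))

instance [CompactSpace k] : CompactSpace (NC X k) := inferInstanceAs (CompactSpace (List X → k))

instance [TotallyDisconnectedSpace k] : TotallyDisconnectedSpace (NC X k) :=
  inferInstanceAs (TotallyDisconnectedSpace (List X → k))

variable [Ring k] [IsTopologicalRing k]

instance : IsTopologicalAddGroup (NC X k) :=
  inferInstanceAs (IsTopologicalAddGroup (List X → k))

theorem continuous_mulAux (w : List X) :
    Continuous fun q : NC X k × NC X k => (q.1 * q.2) w := by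
  induction w with
  | nil =>
    exact ((continuous_apply (k := k) (X := X) []).comp continuous_fst).mul
      ((continuous_apply (k := k) (X := X) []).comp continuous_snd)
  | cons x w ih =>
    simp only [mul_cons]
    refine (((continuous_apply (k := k) (X := X) []).comp continuous_fst).mul
      ((continuous_apply (k := k) (X := X) (x :: w)).comp continuous_snd)).add ?_
    exact ih.comp (((continuous_sh (k := k) x).comp continuous_fst).prodMk continuous_snd)

instance : IsTopologicalRing (NC X k) where
  continuous_mul := continuous_iff.2 continuous_mulAux

end top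

end NC

end Pool.Agent.Helper85.PF
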