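import Pool.Agent.Helper85.PF.Group
import Pool.Agent.Helper85.PF.NC

/-!
# Free pro-`p` groups and the Freiheitssatz question

Definitions for the question MP_0beb95_al: the Magnus homomorphism and the depth (the
group-theoretic definitions are in `Group.lean`).
-/

set_option autoImplicit false
set_option linter.unusedSectionVars false

universe u

namespace Pool.Agent.Helper85.PF

open Filter Topology

section

variable {X F : Type u} [Group F] [TopologicalSpace F] [IsTopologicalGroup F]

/-- `μ : F → 𝔽_p⟨⟨X⟩⟩` is the Magnus homomorphism of the basis `ι`: continuous with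
`μ (ι x) = 1 + x`. -/
structure IsMagnus (p : ℕ) (ι : X → F) (μ : F →* NC X (ZMod p)) : Prop where
  cont : Continuous μ
  var : ∀ x, μ (ι x) = 1 + NC.var x

end

section

variable {X : Type*}

/-- the weight of a word -/
def wtw (wt : X → ℕ) (w : List X) : ℕ := (w.map wt).sum

/-- `n` is the weighted depth of the series `a` of constant term `1`: the least weight of a
nonempty word with nonzero coefficient. -/
structure IsDepth {k : Type*} [Ring k] (wt : X → ℕ) (a : NC X k) (n : ℕ) : Prop where
  low : ∀ w : List X, w ≠ [] → wtw wt w < n → a w = 0
  attained : ∃ w : List X, w ≠ [] ∧ wtw wt w = n ∧ a w ≠ 0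

end

end Pool.Agent.Helper85.PF
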