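import Pool.Agent.Helper85.PF.Defs

/-!
# Weights, closed ideals, shuffles: basic lemmas
-/

set_option autoImplicit false
set_option linter.unusedSectionVars false

universe u

namespace Pool.Agent.Helper85.PF

open Filter Topology

/-! ### weights -/

section weights

variable {X k : Type*} [Ring k] (wt : X → ℕ)

@[simp] theorem wtw_nil : wtw wt [] = 0 := rfl
@[simp] theorem wtw_cons (x : X) (w : List X) : wtw wt (x :: w) = wt x + wtw wt w := by
  simp [wtw]
@[simp] theorem wtw_append (v w : List X) : wtw wt (v ++ w) = wtw wt v + wtw wt w := by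
  simp [wtw]

/-- `a` has no terms of weight `< d` -/
def Low (d : ℕ) (a : NC X k) : Prop := ∀ w, wtw wt w < d → a w = 0

open Classical in
/-- the homogeneous component of weight `d` -/
noncomputable def hc (d : ℕ) (a : NC X k) : NC X k := fun w => if wtw wt w = d then a w else 0

theorem hc_apply (d : ℕ) (a : NC X k) (w : List X) :
    hc wt d a w = if wtw wt w = d then a w else 0 := by
  unfold hc
  split_ifs <;> rfl

@[simp] theorem hc_zero (d : ℕ) : hc wt d (0 : NC X k) = 0 := by
  ext w; simp [hc_apply]

theorem hc_add (d : ℕ) (a b : NC X k) : hc wt d (a + b) = hc wt d a + hc wt d b := by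
  ext w; simp only [hc_apply, NC.add_apply]; split_ifs <;> simp

theorem hc_sub (d : ℕ) (a b : NC X k) : hc wt d (a - b) = hc wt d a - hc wt d b := by
  ext w; simp only [hc_apply, NC.sub_apply]; split_ifs <;> simp

theorem hc_neg (d : ℕ) (a : NC X k) : hc wt d (-a) = -hc wt d a := by
  ext w; simp only [hc_apply, NC.neg_apply]; split_ifs <;> simp

theorem hc_sum {κ : Type*} (s : Finset κ) (f : κ → NC X k) (d : ℕ) :
    hc wt d (∑ i ∈ s, f i) = ∑ i ∈ s, hc wt d (f i) := by
  classical
  induction s using Finset.induction_on with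
  | empty => simp
  | insert i s hi ih => rw [Finset.sum_insert hi, Finset.sum_insert hi, hc_add, ih]

theorem hc_hc_self (d : ℕ) (a : NC X k) : hc wt d (hc wt d a) = hc wt d a := by
  ext w; simp only [hc_apply]; split_ifs <;> rfl

theorem hc_hc_ne {d e : ℕ} (h : d ≠ e) (a : NC X k) : hc wt d (hc wt e a) = 0 := by
  ext w; simp only [hc_apply, NC.zero_apply]; split_ifs with h1 h2 <;> first | rfl | omega

theorem low_zero (a : NC X k) : Low wt 0 a := fun _ h => absurd h (Nat.not_lt_zero _)

theorem Low.mono {d e : ℕ} (h : d ≤ e) {a : NC X k} (ha : Low wt e a) : Low wt d a :=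
  fun w hw => ha w (lt_of_lt_of_le hw h)

theorem Low.add {d : ℕ} {a b : NC X k} (ha : Low wt d a) (hb : Low wt d b) : Low wt d (a + b) :=
  fun w hw => by rw [NC.add_apply, ha w hw, hb w hw, add_zero]

theorem Low.sub {d : ℕ} {a b : NC X k} (ha : Low wt d a) (hb : Low wt d b) : Low wt d (a - b) :=
  fun w hw => by rw [NC.sub_apply, ha w hw, hb w hw, sub_zero]

theorem Low.neg {d : ℕ} {a : NC X k} (ha : Low wt d a) : Low wt d (-a) :=
  fun w hw => by rw [NC.neg_apply, ha w hw, neg_zero]

theorem low_hc (d : ℕ) (a : NC X k) : Low wt d (hc wt d a) := fun w hw => by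
  rw [hc_apply, if_neg (by omega)]

/-- `a - hc d a` has no terms of weight `≤ d` if `a` has no terms of weight `< d` -/
theorem Low.sub_hc {d : ℕ} {a : NC X k} (ha : Low wt d a) : Low wt (d + 1) (a - hc wt d a) := by
  intro w hw
  rw [NC.sub_apply, hc_apply]
  split_ifs with h
  · simp
  · rw [ha w (by omega), sub_zero]

theorem Low.succ_of_hc {d : ℕ} {a : NC X k} (ha : Low wt d a) (h : hc wt d a = 0) :
    Low wt (d + 1) a := by
  have := ha.sub_hc
  rwa [h, sub_zero] at this

theorem Low.sh {d : ℕ} {a : NC X k} (ha : Low wt d a) (x : X) :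
    Low wt (d - wt x) (NC.sh a x) := fun w hw => ha (x :: w) (by rw [wtw_cons]; omega)

theorem hc_of_low {d e : ℕ} (h : e < d) {a : NC X k} (ha : Low wt d a) : hc wt e a = 0 := by
  ext w
  rw [hc_apply]
  split_ifs with h1
  · exact ha w (by omega)
  · rfl

theorem sh_hc {d : ℕ} {x : X} (h : wt x ≤ d) (a : NC X k) :
    NC.sh (hc wt d a) x = hc wt (d - wt x) (NC.sh a x) := by
  ext w
  rw [NC.sh_apply, hc_apply, hc_apply, wtw_cons, NC.sh_apply]
  have : (wt x + wtw wt w = d) ↔ (wtw wt w = d - wt x) := by omega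
  simp only [this]

theorem sh_hc_lt {d : ℕ} {x : X} (h : d < wt x) (a : NC X k) :
    NC.sh (hc wt d a) x = 0 := by
  ext w
  rw [NC.sh_apply, hc_apply, wtw_cons, if_neg (by omega), NC.zero_apply]

theorem hc_zero_eq (hwt : ∀ x, 0 < wt x) (a : NC X k) : hc wt 0 a = NC.C (a []) := by
  ext w
  cases w with
  | nil => simp [hc_apply]
  | cons x w =>
    have := hwt x
    rw [hc_apply, wtw_cons, if_neg (by omega), NC.C_cons]

theorem low_mul_aux (w : List X) : ∀ (d e : ℕ) (a b : NC X k), Low wt d a → Low wt e b →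
    wtw wt w < d + e → (a * b) w = 0 := by
  induction w with
  | nil =>
    intro d e a b ha hb h
    rw [NC.mul_nil]
    rcases Nat.eq_zero_or_pos d with hd | hd
    · rw [hb [] (by simpa [hd] using h), mul_zero]
    · rw [ha [] (by simpa using hd), zero_mul]
  | cons x w ih =>
    intro d e a b ha hb h
    rw [NC.mul_cons]
    rw [wtw_cons] at h
    have h2 : a [] * b (x :: w) = 0 := by
      rcases Nat.eq_zero_or_pos d with hd | hd
      · rw [hb (x :: w) (by rw [wtw_cons]; omega), mul_zero]
      · rw [ha [] (by simpa using hd), zero_mul]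
    rw [h2, zero_add]
    by_cases hx : wt x ≤ d
    · exact ih (d - wt x) e _ b (ha.sh wt x) hb (by omega)
    · exact ih 0 e _ b (low_zero wt _) hb (by omega)

theorem Low.mul {d e : ℕ} {a b : NC X k} (ha : Low wt d a) (hb : Low wt e b) :
    Low wt (d + e) (a * b) := fun w hw => low_mul_aux wt w d e a b ha hb hw

theorem Low.mul_left {d : ℕ} {b : NC X k} (a : NC X k) (hb : Low wt d b) :
    Low wt d (a * b) := by
  have := (low_zero wt a).mul wt hb
  rwa [zero_add] at this

theorem Low.mul_right {d : ℕ} {a : NC X k} (ha : Low wt d a) (b : NC X k) :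
    Low wt d (a * b) := by
  have := ha.mul wt (low_zero wt b)
  rwa [add_zero] at this

theorem hc_mul_hc_aux (w : List X) : ∀ (d e : ℕ) (a b : NC X k),
    (hc wt d a * hc wt e b) w = if wtw wt w = d + e then (hc wt d a * hc wt e b) w else 0 := by
  induction w with
  | nil =>
    intro d e a b
    simp only [NC.mul_nil, hc_apply, wtw_nil]
    split_ifs <;> first | rfl | simp | omega
  | cons x w ih =>
    intro d e a b
    split_ifs with h
    · rfl
    rw [wtw_cons] at h
    rw [NC.mul_cons]
    have h2 : hc wt d a [] * hc wt e b (x :: w) = 0 := by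
      rw [hc_apply, hc_apply, wtw_nil, wtw_cons]
      split_ifs <;> first | simp | omega
    rw [h2, zero_add]
    by_cases hx : wt x ≤ d
    · rw [sh_hc wt hx, ih, if_neg (by omega)]
    · rw [sh_hc_lt wt (by omega), zero_mul, NC.zero_apply]

/-- a product of homogeneous series is homogeneous -/
theorem hc_mul_hc (d e : ℕ) (a b : NC X k) :
    hc wt (d + e) (hc wt d a * hc wt e b) = hc wt d a * hc wt e b := by
  ext w
  rw [hc_apply, hc_mul_hc_aux wt w d e a b]
  split_ifs <;> rfl

/-- leading components are multiplicative -/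
theorem hc_mul_of_low {d e : ℕ} {a b : NC X k} (ha : Low wt d a) (hb : Low wt e b) :
    hc wt (d + e) (a * b) = hc wt d a * hc wt e b := by
  have h1 : a * b = hc wt d a * hc wt e b + (a - hc wt d a) * hc wt e b +
      a * (b - hc wt e b) := by noncomm_ring
  rw [h1, hc_add, hc_add, hc_mul_hc]
  have h2 : hc wt (d + e) ((a - hc wt d a) * hc wt e b) = 0 :=
    hc_of_low wt (by omega) ((ha.sub_hc wt).mul wt (low_hc wt e b))
  have h3 : hc wt (d + e) (a * (b - hc wt e b)) = 0 :=
    hc_of_low wt (by omega) (ha.mul wt (hb.sub_hc wt))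
  rw [h2, h3, add_zero, add_zero]

/-- the homogeneous components of a product -/
theorem hc_mul_aux (w : List X) : ∀ (d : ℕ) (a b : NC X k), wtw wt w = d →
    (a * b) w = (∑ q ∈ Finset.HasAntidiagonal.antidiagonal d, hc wt q.1 a * hc wt q.2 b) w := by
  intro d a b hw
  -- truncate
  set a' : NC X k := ∑ i ∈ Finset.range (d + 1), hc wt i a with ha'
  set b' : NC X k := ∑ i ∈ Finset.range (d + 1), hc wt i b with hb'
  have hlow : ∀ c : NC X k, Low wt (d + 1) (c - ∑ i ∈ Finset.range (d + 1), hc wt i c) := by
    intro c v hv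
    rw [NC.sub_apply]
    have h1 : (∑ i ∈ Finset.range (d + 1), hc wt i c) v =
        ∑ i ∈ Finset.range (d + 1), hc wt i c v := by
      exact Finset.sum_apply v _ _
    rw [h1, Finset.sum_eq_single (wtw wt v)]
    · rw [hc_apply, if_pos rfl, sub_self]
    · intro i _ hi
      rw [hc_apply, if_neg (Ne.symm hi)]
    · intro hn
      exact absurd (Finset.mem_range.2 hv) hn
  have h1 : a * b = a' * b' + (a - a') * b' + a * (b - b') := by noncomm_ring
  have h2 : ((a - a') * b') w = 0 := ((hlow a).mul_right wt b') w (by omega)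
  have h3 : (a * (b - b')) w = 0 := ((hlow b).mul_left wt a) w (by omega)
  rw [h1, NC.add_apply, NC.add_apply, h2, h3, add_zero, add_zero, ha', hb',
    Finset.sum_mul_sum, ← Finset.sum_product']
  have happ : ∀ (s : Finset (ℕ × ℕ)), (∑ q ∈ s, hc wt q.1 a * hc wt q.2 b) w =
      ∑ q ∈ s, (hc wt q.1 a * hc wt q.2 b) w := fun s => Finset.sum_apply w _ _
  rw [happ, happ]
  symm
  apply Finset.sum_subset
  · intro q hq
    rw [Finset.HasAntidiagonal.mem_antidiagonal] at hq
    rw [Finset.mem_product, Finset.mem_range, Finset.mem_range]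
    constructor <;> omega
  · intro q _ hq
    rw [Finset.HasAntidiagonal.mem_antidiagonal] at hq
    rw [hc_mul_hc_aux wt w q.1 q.2 a b, if_neg (by omega)]

theorem hc_mul (d : ℕ) (a b : NC X k) :
    hc wt d (a * b) = ∑ q ∈ Finset.HasAntidiagonal.antidiagonal d, hc wt q.1 a * hc wt q.2 b := by
  ext w
  by_cases h : wtw wt w = d
  · rw [hc_apply, if_pos h, hc_mul_aux wt w d a b h]
  · rw [hc_apply, if_neg h]
    have happ : (∑ q ∈ Finset.HasAntidiagonal.antidiagonal d, hc wt q.1 a * hc wt q.2 b) w =
      ∑ q ∈ Finset.HasAntidiagonal.antidiagonal d, (hc wt q.1 a * hc wt q.2 b) w := Finset.sum_apply w _ _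
    rw [happ]
    symm
    apply Finset.sum_eq_zero
    intro q hq
    rw [Finset.HasAntidiagonal.mem_antidiagonal] at hq
    rw [hc_mul_hc_aux wt w q.1 q.2 a b, if_neg (by omega)]

theorem hc_var_mul {d : ℕ} (x : X) (h : wt x ≤ d) (a : NC X k) :
    hc wt d (NC.var x * a) = NC.var x * hc wt (d - wt x) a := by
  ext w
  rw [hc_apply]
  cases w with
  | nil => simp
  | cons y w =>
    by_cases hy : y = x
    · subst hy
      rw [NC.var_mul_cons_self, NC.var_mul_cons_self, hc_apply, wtw_cons]
      have : (wt y + wtw wt w = d) ↔ (wtw wt w = d - wt y) := by omega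
      simp only [this]
    · rw [NC.var_mul_cons_ne hy, NC.var_mul_cons_ne hy]
      simp

theorem hc_var_mul_lt {d : ℕ} (x : X) (h : d < wt x) (a : NC X k) :
    hc wt d (NC.var x * a) = 0 := by
  ext w
  rw [hc_apply]
  cases w with
  | nil => simp
  | cons y w =>
    by_cases hy : y = x
    · subst hy
      rw [NC.var_mul_cons_self, wtw_cons, if_neg (by omega), NC.zero_apply]
    · rw [NC.var_mul_cons_ne hy]
      simp

theorem eq_sum_var_mul_sh [Fintype X] (a : NC X k) :
    a = NC.C (a []) + ∑ x, NC.var x * NC.sh a x := by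
  classical
  ext w
  rw [NC.add_apply]
  have happ : (∑ x, NC.var x * NC.sh a x : NC X k) w = ∑ x, (NC.var x * NC.sh a x : NC X k) w :=
    Finset.sum_apply w _ _
  rw [happ]
  cases w with
  | nil => simp
  | cons y w =>
    rw [Finset.sum_eq_single y]
    · rw [NC.var_mul_cons_self]
      simp [NC.sh]
    · intro x _ hx
      exact NC.var_mul_cons_ne (Ne.symm hx) _ _
    · intro h
      exact absurd (Finset.mem_univ _) h

end weights

/-! ### closed ideals -/

section ideal

variable {A : Type*} [Ring A] [TopologicalSpace A] [IsTopologicalRing A]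

/-- the closed two-sided ideal generated by `u` -/
def clIdeal (u : A) : AddSubgroup A :=
  (AddSubgroup.closure {v | ∃ b c : A, v = b * u * c}).topologicalClosure

theorem mem_clIdeal_self (u : A) : u ∈ clIdeal u :=
  AddSubgroup.le_topologicalClosure _ (AddSubgroup.subset_closure ⟨1, 1, by simp⟩)

theorem isClosed_clIdeal (u : A) : IsClosed (clIdeal u : Set A) :=
  AddSubgroup.isClosed_topologicalClosure _

/-- induction principle for the closed ideal -/
theorem clIdeal_le {u : A} {I : AddSubgroup A} (hc : IsClosed (I : Set A))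
    (h : ∀ b c : A, b * u * c ∈ I) : clIdeal u ≤ I := by
  apply AddSubgroup.topologicalClosure_minimal _ _ hc
  rw [AddSubgroup.closure_le]
  rintro v ⟨b, c, rfl⟩
  exact h b c

theorem mul_mem_clIdeal_left {u v : A} (a : A) (hv : v ∈ clIdeal u) : a * v ∈ clIdeal u := by
  let I : AddSubgroup A := (clIdeal u).comap (AddMonoidHom.mulLeft a)
  have hI : IsClosed (I : Set A) := (isClosed_clIdeal u).preimage (continuous_const_mul a)
  have : clIdeal u ≤ I := clIdeal_le hI fun b c => by
    change a * (b * u * c) ∈ clIdeal u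
    exact AddSubgroup.le_topologicalClosure _ (AddSubgroup.subset_closure
      ⟨a * b, c, by noncomm_ring⟩)
  exact this hv

theorem mul_mem_clIdeal_right {u v : A} (a : A) (hv : v ∈ clIdeal u) : v * a ∈ clIdeal u := by
  let I : AddSubgroup A := (clIdeal u).comap (AddMonoidHom.mulRight a)
  have hI : IsClosed (I : Set A) := (isClosed_clIdeal u).preimage (continuous_mul_const a)
  have : clIdeal u ≤ I := clIdeal_le hI fun b c => by
    change b * u * c * a ∈ clIdeal u
    exact AddSubgroup.le_topologicalClosure _ (AddSubgroup.subset_closure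
      ⟨b, c * a, by noncomm_ring⟩)
  exact this hv

/-- the closed ideal generated by `u` is completely prime -/
def IsPrimeCl (u : A) : Prop := ∀ a b : A, a * b ∈ clIdeal u → a ∈ clIdeal u ∨ b ∈ clIdeal u

end ideal

/-! ### shuffles -/

section shuffle

variable {X k : Type*} [Ring k]

open Classical in
/-- `Sh u v a` is the sum of the coefficients of `a` over the shuffles of `u` and `v` -/
noncomputable def Sh : List X → List X → NC X k → k
  | [], v, a => a v
  | u, [], a => a u
  | x :: u, y :: v, a => Sh u (y :: v) (NC.sh a x) + Sh (x :: u) v (NC.sh a y)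
  termination_by u v => u.length + v.length

end shuffle

end Pool.Agent.Helper85.PF
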