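import Pool.Agent.Helper85.PF.Main

/-!
# The coefficients of the Magnus expansion
-/

set_option autoImplicit false

namespace Pool.Agent.Helper85.PF

theorem NC.mul_apply_sum {X k : Type*} [Ring k] (w : List X) : ∀ a b : NC X k,
    (a * b) w = ∑ i ∈ Finset.range (w.length + 1), a (w.take i) * b (w.drop i) := by
  induction w with
  | nil => intro a b; simp
  | cons x w ih =>
    intro a b
    rw [NC.mul_cons, ih, List.length_cons, Finset.sum_range_succ' _ (w.length + 1), add_comm]
    rfl

end Pool.Agent.Helper85.PF
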