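import Pool.Agent.Helper85.PF.Basic

/-!
# The free algebra inside the power series, restriction of the alphabet
-/

set_option autoImplicit false
set_option linter.unusedSectionVars false

universe u

namespace Pool.Agent.Helper85.PF

open Filter Topology

section

variable {X k : Type*} [CommRing k]

/-- the free algebra maps to the power series -/
noncomputable def toNC : FreeAlgebra k X →ₐ[k] NC X k := FreeAlgebra.lift k NC.var

@[simp] theorem toNC_ι (x : X) : toNC (FreeAlgebra.ι k x) = (NC.var x : NC X k) := by
  simp [toNC]

end

section

variable {X k : Type*} [Ring k]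

/-- restriction to a subalphabet (the other variables are put equal to `0`) -/
def resFun (S : Set X) (a : NC X k) : NC S k := fun w => a (w.map Subtype.val)

theorem resFun_mul (S : Set X) (w : List S) : ∀ a b : NC X k,
    resFun S (a * b) w = (resFun S a * resFun S b) w := by
  induction w with
  | nil => intro a b; rfl
  | cons x w ih =>
    intro a b
    have h1 : resFun S (a * b) (x :: w) = a [] * b (x.1 :: w.map Subtype.val) +
        (NC.sh a x.1 * b) (w.map Subtype.val) := rfl
    have h2 : (NC.sh a x.1 * b) (w.map Subtype.val) = resFun S (NC.sh a x.1 * b) w := rfl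
    rw [h1, h2, ih, NC.mul_cons]
    rfl

/-- restriction to a subalphabet, as a ring homomorphism -/
def res (S : Set X) : NC X k →+* NC S k where
  toFun := resFun S
  map_one' := NC.ext fun w => by cases w <;> rfl
  map_zero' := rfl
  map_add' _ _ := rfl
  map_mul' a b := NC.ext fun w => resFun_mul S w a b

theorem res_apply (S : Set X) (a : NC X k) (w : List S) :
    res S a w = a (w.map Subtype.val) := rfl

theorem continuous_res [TopologicalSpace k] (S : Set X) :
    Continuous (res S : NC X k → NC S k) :=
  NC.continuous_iff.2 fun w => NC.continuous_apply (w.map Subtype.val)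

open Classical in
/-- extension by zero -/
noncomputable def extFun (S : Set X) (a : NC S k) : NC X k := fun w =>
  if h : ∀ x ∈ w, x ∈ S then a (w.attach.map fun x => ⟨x.1, h x.1 x.2⟩) else 0

theorem res_extFun (S : Set X) (a : NC S k) : res S (extFun S a) = a := by
  ext w
  rw [res_apply]
  unfold extFun
  have h : ∀ x ∈ w.map Subtype.val, x ∈ S := by
    intro x hx
    obtain ⟨y, _, rfl⟩ := List.mem_map.1 hx
    exact y.2
  rw [dif_pos h]
  congr 1
  apply List.ext_getElem
  · simp
  · intro i h1 h2
    simp

theorem res_surjective (S : Set X) : Function.Surjective (res S : NC X k → NC S k) :=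
  fun a => ⟨extFun S a, res_extFun S a⟩

theorem wtw_map (wt : X → ℕ) (S : Set X) (w : List S) :
    wtw (fun x : S => wt x.1) w = wtw wt (w.map Subtype.val) := by
  simp only [wtw, List.map_map]
  rfl

theorem hc_res (wt : X → ℕ) (S : Set X) (d : ℕ) (a : NC X k) :
    hc (fun x : S => wt x.1) d (res S a) = res S (hc wt d a) := by
  ext w
  rw [hc_apply, res_apply, res_apply, hc_apply, wtw_map]

theorem Sh_res (S : Set X) : ∀ (u v : List S) (a : NC X k),
    Sh u v (res S a) = Sh (u.map Subtype.val) (v.map Subtype.val) a
  | [], v, a => by simp [Sh, res_apply]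
  | x :: u, [], a => by simp [Sh, res_apply]
  | x :: u, y :: v, a => by
    have h1 : NC.sh (res S a) x = res S (NC.sh a x.1) := rfl
    have h2 : NC.sh (res S a) y = res S (NC.sh a y.1) := rfl
    rw [List.map_cons, List.map_cons, Sh, Sh, h1, h2, Sh_res S u (y :: v), Sh_res S (x :: u) v,
      List.map_cons, List.map_cons]
  termination_by u v => u.length + v.length

end

end Pool.Agent.Helper85.PF
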