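import Mathlib

/-!
# Free pro-`p` groups and the Freiheitssatz question

The definitions of the question MP_0beb95_al.
-/

set_option autoImplicit false
set_option linter.unusedSectionVars false

universe u

namespace Pool.Agent.Helper85.PF

open Filter Topology

/-- A topological group is pro-`p` if it is compact and totally disconnected, and the index of
every open normal subgroup is a power of `p`. -/
structure IsProP (p : ℕ) (G : Type u) [Group G] [TopologicalSpace G] [IsTopologicalGroup G] :
    Prop where
  compact : CompactSpace G
  totDisc : TotallyDisconnectedSpace G
  index : ∀ U : Subgroup G, U.Normal → IsOpen (U : Set G) → ∃ n : ℕ, U.index = p ^ n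

/-- `F` is a free pro-`p` group with basis `ι : X → F`: it is pro-`p`, the basis converges to `1`
(no condition for a finite basis) and every map from `X` to a pro-`p` group which converges to `1`
extends uniquely to a continuous homomorphism. -/
structure IsFreeProP (p : ℕ) {X F : Type u} [Group F] [TopologicalSpace F]
    [IsTopologicalGroup F] (ι : X → F) : Prop where
  isProP : IsProP p F
  conv : Tendsto ι cofinite (𝓝 1)
  univ : ∀ (H : Type u) [Group H] [TopologicalSpace H] [IsTopologicalGroup H], IsProP p H →
    ∀ f : X → H, Tendsto f cofinite (𝓝 1) →
      ∃! φ : F →* H, Continuous φ ∧ ∀ x, φ (ι x) = f x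

section

variable {X F : Type u} [Group F] [TopologicalSpace F] [IsTopologicalGroup F]

/-- `F(Y)`: the closed subgroup generated by the basis elements with index in `Y`. -/
def FY (ι : X → F) (Y : Set X) : Subgroup F := (Subgroup.closure (ι '' Y)).topologicalClosure

/-- `r^F`: the closed normal subgroup generated by `r`. -/
def RN (r : F) : Subgroup F := (Subgroup.normalClosure {r}).topologicalClosure

instance RN_normal (r : F) : (RN r).Normal :=
  Subgroup.is_normal_topologicalClosure _

/-- some element associated to `r` (that is, with the same closed normal closure) depends on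
`Y`. -/
def Dep (ι : X → F) (r : F) (Y : Set X) : Prop := ∃ s ∈ FY ι Y, RN s = RN r

/-- `X \ {x}` stays free modulo `R = r^F`: the natural map `F(X \ {x}) → F / R` is injective. -/
def StaysFree (ι : X → F) (r : F) (x : X) : Prop :=
  Function.Injective ((QuotientGroup.mk' (RN r)).comp (FY ι {x}ᶜ).subtype)

/-- The assertion of Q1 for the relator `r`: for every minimal `X'` such that some element
associated to `r` depends on `X'`, and every `x ∈ X'`, the set `X \ {x}` stays free modulo
`r^F`. -/
def Q1 (ι : X → F) (r : F) : Prop :=
  ∀ X' : Set X, Minimal (Dep ι r) X' → ∀ x ∈ X', StaysFree ι r x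

end

end Pool.Agent.Helper85.PF
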