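import Pool.Agent.Helper85.PF.St.T0

/-!
# Lie forms
-/

set_option autoImplicit false
set_option linter.unusedSectionVars false

universe u

namespace Pool.Agent.Helper85.PF

open Filter Topology

attribute [local instance 100] LieRing.ofAssociativeRing

/-- The component of weight `n` of the series `a` is a Lie form: it lies in the closed Lie
subalgebra of `NC Z k` generated by the variables (bracket `a * b - b * a`). -/
def LieForm {Z k : Type*} [CommRing k] [TopologicalSpace k] (wt : Z → ℕ) (n : ℕ) (a : NC Z k) :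
    Prop :=
  hc wt n a ∈ closure ((LieSubalgebra.lieSpan k (NC Z k) (Set.range NC.var) :
    LieSubalgebra k (NC Z k)) : Set (NC Z k))

section

variable {Z k : Type*} [CommRing k]

/-- the Lie span of the variables in the free algebra -/
private noncomputable abbrev LS (k Z : Type*) [CommRing k] : LieSubalgebra k (FreeAlgebra k Z) :=
  LieSubalgebra.lieSpan k (FreeAlgebra k Z) (Set.range (FreeAlgebra.ι k))

private theorem graded_of_mem (wt : Z → ℕ) {l : FreeAlgebra k Z} (hl : l ∈ LS k Z) (n : ℕ) :
    ∃ l' ∈ LS k Z, toNC l' = hc wt n (toNC l) := by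
  revert n
  refine LieSubalgebra.lieSpan_induction k (p := fun l _ => ∀ n : ℕ, ∃ l' ∈ LS k Z,
    toNC l' = hc wt n (toNC l)) ?_ ?_ ?_ ?_ ?_ hl
  · rintro _ ⟨z, rfl⟩ n
    by_cases hz : wt z = n
    · refine ⟨FreeAlgebra.ι k z, LieSubalgebra.subset_lieSpan ⟨z, rfl⟩, ?_⟩
      ext w
      rw [hc_apply, toNC_ι]
      split_ifs with h
      · rfl
      · unfold NC.var
        rw [if_neg]
        rintro rfl
        simp [hz] at h
    · refine ⟨0, zero_mem _, ?_⟩
      ext w
      rw [hc_apply, map_zero, toNC_ι]
      split_ifs with h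
      · unfold NC.var
        rw [if_neg]
        · rfl
        · rintro rfl
          simp [hz] at h
      · rfl
  · intro n
    exact ⟨0, zero_mem _, by rw [map_zero, hc_zero]⟩
  · intro a b _ _ ha hb n
    obtain ⟨a', ha', ha2⟩ := ha n
    obtain ⟨b', hb', hb2⟩ := hb n
    exact ⟨a' + b', add_mem ha' hb', by rw [map_add, map_add, hc_add, ha2, hb2]⟩
  · intro c a _ ha n
    obtain ⟨a', ha', ha2⟩ := ha n
    refine ⟨c • a', (LS k Z).smul_mem c ha', ?_⟩
    rw [map_smul, map_smul, ha2]
    ext w
    simp only [hc_apply, NC.smul_apply]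
    split_ifs <;> simp
  · intro a b _ _ ha hb n
    choose a' ha' ha2 using ha
    choose b' hb' hb2 using hb
    refine ⟨∑ q ∈ Finset.HasAntidiagonal.antidiagonal n, ⁅a' q.1, b' q.2⁆, ?_, ?_⟩
    · exact sum_mem fun q _ => (LS k Z).lie_mem (ha' q.1) (hb' q.2)
    · have hswap : ∑ q ∈ Finset.HasAntidiagonal.antidiagonal n, hc wt q.1 (toNC b) *
          hc wt q.2 (toNC a) = ∑ q ∈ Finset.HasAntidiagonal.antidiagonal n,
          hc wt q.2 (toNC b) * hc wt q.1 (toNC a) := by
        refine Finset.sum_nbij' Prod.swap Prod.swap ?_ ?_ ?_ ?_ ?_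
        · intro q hq
          rw [Finset.HasAntidiagonal.mem_antidiagonal] at hq ⊢
          simpa [add_comm] using hq
        · intro q hq
          rw [Finset.HasAntidiagonal.mem_antidiagonal] at hq ⊢
          simpa [add_comm] using hq
        · intro q _
          rfl
        · intro q _
          rfl
        · intro q _
          rfl
      rw [map_sum, LieRing.of_associative_ring_bracket, map_sub, map_mul, map_mul, hc_sub,
        hc_mul, hc_mul, hswap, ← Finset.sum_sub_distrib]
      refine Finset.sum_congr rfl fun q _ => ?_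
      rw [LieRing.of_associative_ring_bracket, map_sub, map_mul, map_mul, ha2, hb2]

/-- elements of the Lie span of the variables restrict to images of the Lie span -/
private theorem res_of_mem (S : Set Z) {a : NC Z k}
    (ha : a ∈ LieSubalgebra.lieSpan k (NC Z k) (Set.range NC.var)) :
    ∃ l ∈ LS k S, toNC l = res S a := by
  refine LieSubalgebra.lieSpan_induction k (p := fun a _ => ∃ l ∈ LS k S,
    toNC l = res S a) ?_ ?_ ?_ ?_ ?_ ha
  · rintro _ ⟨z, rfl⟩
    by_cases hz : z ∈ S
    · refine ⟨FreeAlgebra.ι k ⟨z, hz⟩, LieSubalgebra.subset_lieSpan ⟨_, rfl⟩, ?_⟩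
      ext w
      rw [toNC_ι, res_apply]
      unfold NC.var
      by_cases hw : w = [(⟨z, hz⟩ : S)]
      · subst hw
        rw [if_pos rfl]
        exact (if_pos rfl).symm
      · rw [if_neg hw, if_neg]
        intro h
        apply hw
        match w, h with
        | [y], h =>
          simp only [List.map_cons, List.map_nil, List.cons.injEq, and_true] at h
          subst h
          rfl
    · refine ⟨0, zero_mem _, ?_⟩
      ext w
      rw [map_zero, res_apply]
      unfold NC.var
      rw [if_neg]
      · rfl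
      · intro h
        match w, h with
        | [y], h =>
          simp only [List.map_cons, List.map_nil, List.cons.injEq, and_true] at h
          exact hz (h ▸ y.2)
  · exact ⟨0, zero_mem _, by rw [map_zero, map_zero]⟩
  · rintro a b _ _ ⟨a', ha', ha2⟩ ⟨b', hb', hb2⟩
    exact ⟨a' + b', add_mem ha' hb', by rw [map_add, map_add, ha2, hb2]⟩
  · rintro c a _ ⟨a', ha', ha2⟩
    refine ⟨c • a', (LS k S).smul_mem c ha', ?_⟩
    rw [map_smul, ha2]
    rfl
  · rintro a b _ _ ⟨a', ha', ha2⟩ ⟨b', hb', hb2⟩
    refine ⟨⁅a', b'⁆, (LS k S).lie_mem ha' hb', ?_⟩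
    rw [LieRing.of_associative_ring_bracket, LieRing.of_associative_ring_bracket, map_sub,
      map_mul, map_mul, map_sub, map_mul, map_mul, ha2, hb2]

private theorem finite_words [Finite Z] (wt : Z → ℕ) (hwt : ∀ z, 0 < wt z) (n : ℕ) :
    {w : List Z | wtw wt w = n}.Finite := by
  refine Set.Finite.subset (List.finite_length_le Z n) fun w hw => ?_
  have : ∀ w : List Z, w.length ≤ wtw wt w := by
    intro w
    induction w with
    | nil => simp
    | cons z w ih =>
      have := hwt z
      rw [List.length_cons, wtw_cons]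
      omega
  have h1 := this w
  have h2 : wtw wt w = n := hw
  change w.length ≤ n
  omega

/-- a Lie form restricts to Lie polynomials over finite alphabets -/
theorem LieForm.exists_lie [TopologicalSpace k] [DiscreteTopology k] {wt : Z → ℕ}
    (hwt : ∀ z, 0 < wt z) {n : ℕ} {a : NC Z k} (h : LieForm wt n a) (S : Finset Z) :
    ∃ l ∈ LieSubalgebra.lieSpan k (FreeAlgebra k (S : Set Z)) (Set.range (FreeAlgebra.ι k)),
      toNC l = hc (fun z : (S : Set Z) => wt z) n (res (S : Set Z) a) := by
  classical
  set wS : ↥(S : Set Z) → ℕ := fun z => wt z.1 with hwS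
  have hfin := finite_words wS (fun z => hwt z.1) n
  -- an element of the span with the same coefficients at the words over `S` of weight `n`
  obtain ⟨b, hb, hbL⟩ : ∃ b : NC Z k, (∀ w ∈ {w : List ↥(S : Set Z) | wtw wS w = n},
      b (w.map Subtype.val) = hc wt n a (w.map Subtype.val)) ∧
      b ∈ LieSubalgebra.lieSpan k (NC Z k) (Set.range NC.var) := by
    have hopen : IsOpen {b : NC Z k | ∀ w ∈ {w : List ↥(S : Set Z) | wtw wS w = n},
        b (w.map Subtype.val) = hc wt n a (w.map Subtype.val)} := by
      have : {b : NC Z k | ∀ w ∈ {w : List ↥(S : Set Z) | wtw wS w = n},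
          b (w.map Subtype.val) = hc wt n a (w.map Subtype.val)} =
          ⋂ w ∈ {w : List ↥(S : Set Z) | wtw wS w = n},
            (fun b : NC Z k => b (w.map Subtype.val)) ⁻¹' {hc wt n a (w.map Subtype.val)} := by
        ext b
        simp
      rw [this]
      exact hfin.isOpen_biInter fun w _ =>
        (isOpen_discrete _).preimage (NC.continuous_apply _)
    obtain ⟨b, hb1, hb2⟩ := mem_closure_iff.1 h _ hopen (fun w _ => rfl)
    exact ⟨b, hb1, hb2⟩
  obtain ⟨l, hl, hl2⟩ := res_of_mem (S : Set Z) hbL
  obtain ⟨l', hl', hl3⟩ := graded_of_mem wS hl n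
  refine ⟨l', hl', ?_⟩
  rw [hl3, hl2]
  ext w
  rw [hc_apply, hc_apply]
  split_ifs with hw
  · have h1 := hb w hw
    rw [res_apply, res_apply, h1, hc_apply, ← wtw_map, if_pos hw]
  · rfl

end

end Pool.Agent.Helper85.PF
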