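import Pool.Agent.Helper85.PF.St.A1
import Pool.Agent.Helper85.PF.St.A5
import Pool.Agent.Helper85.PF.St.C3
import Pool.Agent.Helper85.PF.St.D1
import Pool.Agent.Helper85.PF.St.E2
import Pool.Agent.Helper85.PF.St.E3
import Pool.Agent.Helper85.PF.St.G1
import Pool.Agent.Helper85.PF.St.G2
import Pool.Agent.Helper85.PF.St.G4
import Pool.Agent.Helper85.PF.LieForm

/-!
# The Freiheitssatz for one-relator pro-`p` groups with a relator of Lie type
-/

set_option autoImplicit false
set_option linter.unusedSectionVars false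

universe u

namespace Pool.Agent.Helper85.PF

open Filter Topology

attribute [local instance 100] LieRing.ofAssociativeRing

variable {p : ℕ} [Fact p.Prime] {X Z F : Type u} [Group F] [TopologicalSpace F]
  [IsTopologicalGroup F] {ι : X → F} {κ : Z → F}

theorem low_sub_one (hF : IsFreeProP p κ) {ν : F →* NC Z (ZMod p)} (hν : IsMagnus p κ ν) {s : F}
    {wt : Z → ℕ} {n : ℕ} (hd : IsDepth wt (ν s) n) : Low wt n (ν s - 1) := by
  intro w hw
  rw [NC.sub_apply]
  cases w with
  | nil => rw [magnus_nil hF hν, NC.one_nil, sub_self]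
  | cons z w => rw [NC.one_cons, sub_zero]; exact hd.low _ (by simp) hw

theorem hc_sub_one {k : Type*} [Ring k] {wt : Z → ℕ} {n : ℕ} (hn : 0 < n) (a : NC Z k) :
    hc wt n (a - 1) = hc wt n a := by
  ext w
  rw [hc_apply, hc_apply, NC.sub_apply]
  cases w with
  | nil =>
    have : ¬ (wtw wt ([] : List Z) = n) := by simp; omega
    rw [if_neg this, if_neg this]
  | cons z w => rw [NC.one_cons, sub_zero]

/-- If the initial form is a Lie polynomial or the depth is prime to `p`, then the closed ideal of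
`s - 1` is completely prime. -/
theorem isPrimeCl_of_lie (hF : IsFreeProP p κ) {ν : F →* NC Z (ZMod p)} (hν : IsMagnus p κ ν)
    (s : F) (wt : Z → ℕ) (hwt : ∀ z, 0 < wt z) (n : ℕ) (hd : IsDepth wt (ν s) n)
    (h : ¬ p ∣ n ∨ LieForm wt n (ν s)) : IsPrimeCl (ν s - 1) := by
  classical
  have hlow := low_sub_one hF hν hd
  obtain ⟨w₀, hw₀, hwn, hne⟩ := hd.attained
  have hn : 0 < n := by
    cases w₀ with
    | nil => exact absurd rfl hw₀
    | cons z w =>
      have := hwt z
      rw [wtw_cons] at hwn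
      omega
  refine isPrimeCl_of_res (ν s - 1) w₀.toFinset fun S hS => ?_
  set k := ZMod p
  set wS : ↥(S : Set Z) → ℕ := fun z => wt z.1 with hwS
  have hwtS : ∀ z, 0 < wS z := fun z => hwt z.1
  have hlowS : Low wS n (res (S : Set Z) (ν s - 1)) := by
    intro w hw
    rw [res_apply]
    exact hlow _ (by rw [← wtw_map]; exact hw)
  -- the Lie polynomial
  obtain ⟨ρ, hρL, hρ⟩ : ∃ ρ ∈ LieSubalgebra.lieSpan k (FreeAlgebra k (S : Set Z))
      (Set.range (FreeAlgebra.ι k)), toNC ρ = hc wS n (res (S : Set Z) (ν s - 1)) := by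
    rcases h with h | h
    · obtain ⟨t, ht⟩ := exists_toNC_hc (k := k) wS hwtS n (res (S : Set Z) (ν s - 1))
      refine ⟨t, ?_, ht⟩
      have hdy := dynkin wS n t (by rw [ht, hc_hc_self]) (by
        intro u v hu hv
        rw [ht, hc_res, Sh_res]
        exact sh_initial_eq_zero hF hν s wt hwt n hlow _ _
          (fun h0 => hu (List.map_eq_nil_iff.1 h0)) (fun h0 => hv (List.map_eq_nil_iff.1 h0)))
      have hn0 : (n : k) ≠ 0 := by
        rw [Ne, ZMod.natCast_eq_zero_iff]
        exact h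
      have := (LieSubalgebra.lieSpan k (FreeAlgebra k (S : Set Z))
        (Set.range (FreeAlgebra.ι k))).smul_mem ((n : k)⁻¹) hdy
      rwa [smul_smul, inv_mul_cancel₀ hn0, one_smul] at this
    · obtain ⟨l, hl, hl2⟩ := h.exists_lie hwt S
      refine ⟨l, hl, ?_⟩
      rw [hl2, map_sub, map_one, hc_sub_one hn]
  have hρ0 : ρ ≠ 0 := by
    rintro rfl
    rw [map_zero] at hρ
    have hmem : ∀ z ∈ w₀, z ∈ (S : Set Z) := fun z hz =>
      Finset.mem_coe.2 (hS (List.mem_toFinset.2 hz))
    let w₁ : List (S : Set Z) := w₀.attach.map fun z => ⟨z.1, hmem z.1 z.2⟩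
    have hw₁ : w₁.map Subtype.val = w₀ := by
      simp [w₁, List.map_map]
    have h1 : hc wS n (res (S : Set Z) (ν s - 1)) w₁ = 0 := by
      rw [← hρ]; rfl
    rw [hc_apply, wtw_map wt (S : Set Z) w₁, hw₁, if_pos hwn, res_apply, hw₁, NC.sub_apply] at h1
    cases w₀ with
    | nil => exact absurd rfl hw₀
    | cons z w =>
      rw [NC.one_cons, sub_zero] at h1
      exact hne h1
  exact isPrimeCl_of_initial wS hwtS hn hlowS ρ hρ hρ0 (prime_of_lie ρ hρL)

theorem q1_congr {r s : F} (hs : RN s = RN r) (h : Q1 ι s) : Q1 ι r := by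
  have hDep : Dep ι r = Dep ι s := by
    funext Y
    simp only [Dep, hs]
  intro X' hX' x hx
  rw [hDep] at hX'
  have := h X' hX' x hx
  unfold StaysFree at this ⊢
  rw [injective_iff_map_eq_one] at this ⊢
  intro g hg
  apply this g
  have h1 : (g : F) ∈ RN r := by simpa using hg
  rw [← hs] at h1
  simpa using h1

/-- Main theorem: Q1 holds for `r` if some element `s` associated to `r` has, for some basis `κ` and
some positive weights, a depth prime to `p`, or a Lie polynomial as initial form. -/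
theorem main_theorem (hF : IsFreeProP p ι) (hF' : IsFreeProP p κ) {ν : F →* NC Z (ZMod p)}
    (hν : IsMagnus p κ ν) (r s : F) (hs : RN s = RN r) (wt : Z → ℕ) (hwt : ∀ z, 0 < wt z) (n : ℕ)
    (hd : IsDepth wt (ν s) n) (h : ¬ p ∣ n ∨ LieForm wt n (ν s)) : Q1 ι r := by
  obtain ⟨μ, hμ⟩ := exists_magnus hF
  have hprime : IsPrimeCl (μ s - 1) :=
    isPrimeCl_transfer hF hF' hμ hν s (isPrimeCl_of_lie hF' hν s wt hwt n hd h)
  refine q1_congr hs (q1_of_dichotomy hF s fun x => ?_)
  by_cases hx : NC.sh (μ s - 1) x ∈ clIdeal (μ s - 1)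
  · exact Or.inr (dep_of_mem hF hμ s x hx)
  · exact Or.inl (staysFree_of_regular hF hμ s x fun a ha => (hprime _ _ ha).resolve_left hx)

end Pool.Agent.Helper85.PF
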