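import Mathlib
import Pool.Agent.Helper85.PF.Main

set_option autoImplicit false

/-!
# The Freiheitssatz for one-relator pro-p groups with a relator of Lie type

Let `F` be a free pro-`p` group and `r ∈ F`.  Suppose that for some element `s` associated to `r`
(same closed normal closure), some basis `κ` of `F` and some positive integer weights on this basis

* the weighted depth `n` of `s` (the least weight of a nonempty word with a nonzero coefficient in
  the Magnus expansion of `s` over `ZMod p`) is not divisible by `p`, or
* the initial form of `s` (the component of weight `n` of its Magnus expansion) is a Lie form.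

Then Q1 holds for `r` with respect to every basis `ι` of `F`: for every minimal set `X'` such that an
element associated to `r` depends on `X'` and for every `x ∈ X'`, the set `X \ {x}` stays free modulo
the closed normal closure of `r`.
-/

universe u

namespace Pool.Agent.Helper85.PF.OldLieType

open Pool.Agent.Helper85.PF

theorem result (p : ℕ) [Fact p.Prime] {X Z F : Type u} [Group F] [TopologicalSpace F]
    [IsTopologicalGroup F] (ι : X → F) (hι : IsFreeProP p ι) (κ : Z → F)
    (hκ : IsFreeProP p κ) :
    ∃ ν : F →* NC Z (ZMod p), IsMagnus p κ ν ∧
      ∀ r s : F, RN s = RN r → ∀ wt : Z → ℕ, (∀ z, 0 < wt z) → ∀ n : ℕ,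
        IsDepth wt (ν s) n → (¬ p ∣ n ∨ LieForm wt n (ν s)) → Q1 ι r := by
  obtain ⟨ν, hν⟩ := exists_magnus hκ
  exact ⟨ν, hν, fun r s hs wt hwt n hd h => main_theorem hι hκ hν r s hs wt hwt n hd h⟩

end Pool.Agent.Helper85.PF.OldLieType
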